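import Pool.Agent.H.MP_fc6706_an.Final

set_option autoImplicit false

namespace Pool.Agent.Results.MP_fc6706_an.WallCost

open MeasureTheory Filter Topology Set Pool.Agent.H.MP_fc6706_an
open scoped ENNReal ContDiff

lemma deriv_periodic {h : ℝ → ℝ} (hp : Function.Periodic h 1) : Function.Periodic (deriv h) 1 := by
  intro t
  have : (fun s => h (s + 1)) = h := funext fun s => hp s
  rw [← deriv_comp_add_const, this]

lemma exists_bounds {h : ℝ → ℝ} (hc : ContDiff ℝ ∞ h) (hper : Function.Periodic h 1)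
    (hmean : ∫ t in (0:ℝ)..1, h t = 1) :
    ∃ B : ℝ, 1 ≤ B ∧ (∀ t, |deriv qq t| ≤ B) ∧ (∀ t, |deriv (deriv qq) t| ≤ B) ∧
      (∀ t, |gg h t| ≤ B) ∧ (∀ t, |h t - 1| ≤ B) ∧ (∀ t, |deriv h t| ≤ B) := by
  obtain ⟨B1, h1, b1⟩ := qq_deriv_bdd
  obtain ⟨B2, h2, b2⟩ := qq_deriv2_bdd
  obtain ⟨B3, h3, b3⟩ := bdd_of_periodic (gg_contDiff hc).continuous
    (gg_periodic hc.continuous hper hmean)
  obtain ⟨B4, h4, b4⟩ := bdd_of_periodic (f := fun t => h t - 1)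
    (hc.continuous.sub continuous_const) (fun t => by simp only [hper t])
  obtain ⟨B5, h5, b5⟩ := bdd_of_periodic (hc.continuous_deriv (by simp)) (deriv_periodic hper)
  refine ⟨1 + B1 + B2 + B3 + B4 + B5, by linarith, ?_, ?_, ?_, ?_, ?_⟩
  · intro t; linarith [b1 t]
  · intro t; linarith [b2 t]
  · intro t; linarith [b3 t]
  · intro t; linarith [b4 t]
  · intro t; linarith [b5 t]

lemma exists_small {p lam B κ : ℝ} (hp0 : 0 < p) (hκ : 0 < κ) :
    ∃ a₀ : ℝ, 0 < a₀ ∧ a₀ ≤ 1 / 2 ∧ ∀ a, 0 < a → a < a₀ →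
      4 * lam * (4 * B ^ 4) ^ p * a ^ p + 20 * a ^ 2 * B ^ 4 / lam ≤ κ := by
  have h1 : ContinuousAt (fun a : ℝ => 4 * lam * (4 * B ^ 4) ^ p * a ^ p +
      20 * a ^ 2 * B ^ 4 / lam) 0 := by
    have : ContinuousAt (fun a : ℝ => a ^ p) 0 := Real.continuousAt_rpow_const _ _ (Or.inr hp0.le)
    fun_prop
  have h2 : Tendsto (fun a : ℝ => 4 * lam * (4 * B ^ 4) ^ p * a ^ p +
      20 * a ^ 2 * B ^ 4 / lam) (𝓝 0) (𝓝 0) := by
    have := h1.tendsto
    simpa [Real.zero_rpow hp0.ne'] using this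
  have h3 := h2.eventually (gt_mem_nhds hκ)
  obtain ⟨δ, hδ, h4⟩ := Metric.eventually_nhds_iff.1 h3
  refine ⟨min δ (1 / 2), by positivity, min_le_right _ _, fun a ha0 ha => ?_⟩
  apply le_of_lt
  apply h4
  rw [Real.dist_eq, sub_zero, abs_of_pos ha0]
  exact ha.trans_le (min_le_left _ _)

lemma const_bound {p a lam M B A κ : ℝ} (ha : 0 < a)
    (hlam : 0 < lam) (hκ : 0 < κ) (hM : 6 * lam * M = κ / 2) (hA : 8 * A ^ 2 ≤ κ * lam)
    (hs : 4 * lam * (4 * B ^ 4) ^ p * a ^ p + 20 * a ^ 2 * B ^ 4 / lam ≤ κ) :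
    2 * (lam * a ^ (1 - p)) * (a ^ (2 * p) * (3 * M) + 2 * (4 * B ^ 4 * a ^ 3) ^ p) +
      4 / (lam * a ^ (1 - p)) * (2 * a ^ 2 * A ^ 2 + 5 * a ^ 4 * B ^ 4) ≤
      κ * (3 * a ^ (1 + p)) := by
  set X := a ^ (1 + p) with hX
  have hXpos : 0 < X := Real.rpow_pos_of_pos ha _
  have e1 : a ^ (1 - p) * a ^ (2 * p) = X := by
    rw [← Real.rpow_add ha, hX]; congr 1; ring
  have e2 : a ^ (1 - p) * (4 * B ^ 4 * a ^ 3) ^ p = (4 * B ^ 4) ^ p * a ^ p * X := by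
    rw [Real.mul_rpow (by positivity) (by positivity)]
    have : (a ^ 3) ^ p = a ^ p * a ^ (2 * p) := by
      rw [← Real.rpow_natCast, ← Real.rpow_mul ha.le, ← Real.rpow_add ha]
      congr 1; push_cast; ring
    rw [this, ← e1]; ring
  have e3 : a ^ 2 / a ^ (1 - p) = X := by
    rw [hX, ← Real.rpow_natCast, ← Real.rpow_sub ha]; congr 1; push_cast; ring
  have hne : a ^ (1 - p) ≠ 0 := (Real.rpow_pos_of_pos ha _).ne'
  have hA' : 8 * A ^ 2 / lam ≤ κ := by rwa [div_le_iff₀ hlam]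
  calc 2 * (lam * a ^ (1 - p)) * (a ^ (2 * p) * (3 * M) + 2 * (4 * B ^ 4 * a ^ 3) ^ p) +
      4 / (lam * a ^ (1 - p)) * (2 * a ^ 2 * A ^ 2 + 5 * a ^ 4 * B ^ 4)
      = (6 * lam * M) * (a ^ (1 - p) * a ^ (2 * p)) +
        4 * lam * (a ^ (1 - p) * (4 * B ^ 4 * a ^ 3) ^ p) +
        (a ^ 2 / a ^ (1 - p)) * (8 * A ^ 2 / lam + 20 * a ^ 2 * B ^ 4 / lam) := by
        field_simp
        ring
    _ = X * (κ / 2 + (4 * lam * (4 * B ^ 4) ^ p * a ^ p + 20 * a ^ 2 * B ^ 4 / lam) +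
        8 * A ^ 2 / lam) := by
        rw [e1, e2, e3, hM]; ring
    _ ≤ X * (κ / 2 + κ + κ) := by gcongr
    _ ≤ κ * (3 * X) := by nlinarith

/-- **For every exponent `0 < p < 1` the one-dimensional wall profile is not optimal.**
Let `Ω = (-1,1)²` and let `u = wall a` be the piecewise constant unit field equal to
`(√(1-a²), a)` for `x₁ > 0` and `(√(1-a²), -a)` for `x₁ ≤ 0`.  For every `κ > 0` and every
sufficiently small `a > 0` there are smooth divergence-free fields `u_ε` on `ℝ²` with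
`u_ε → u` in `L¹(Ω)` as `ε → 0` and `limsup F^p_ε(u_ε) ≤ κ ∫_{J_u} K_p(u·ν) dH¹`, where the
right-hand integral is positive and finite, equal to `2 K_p(√(1-a²))`. -/
theorem result (p : ℝ) (hp0 : 0 < p) (hp1 : p < 1) (κ : ℝ) (hκ : 0 < κ) :
    ∃ a₀ : ℝ, 0 < a₀ ∧ a₀ < 1 ∧ ∀ a : ℝ, 0 < a → a < a₀ →
      0 < wallCost p √(1 - a ^ 2) ∧
      jumpEnergy p square (wall a) = ENNReal.ofReal (2 * wallCost p √(1 - a ^ 2)) ∧
      ∃ u : ℝ → Plane → Plane,
        (∀ ε, 0 < ε → ContDiff ℝ ∞ (u ε) ∧ ∀ x, pd (u ε) 0 0 x + pd (u ε) 1 1 x = 0) ∧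
        Tendsto (fun ε => ∫⁻ x in square, ‖u ε x - wall a x‖ₑ) (𝓝[>] 0) (𝓝 0) ∧
        limsup (fun ε => energy p ε square (u ε)) (𝓝[>] 0) ≤
          ENNReal.ofReal κ * jumpEnergy p square (wall a) := by
  obtain ⟨A, hA0, hA⟩ := eta_deriv_bdd
  set lam : ℝ := 8 * A ^ 2 / κ + 1 with hlam
  have hlam0 : 0 < lam := by positivity
  have hlamA : 8 * A ^ 2 ≤ κ * lam := by
    rw [hlam, mul_add, mul_div_cancel₀ _ hκ.ne']; linarith
  set M : ℝ := κ / (12 * lam) with hM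
  have hM0 : 0 < M := by positivity
  have hM6 : 6 * lam * M = κ / 2 := by rw [hM]; field_simp; ring
  obtain ⟨h, hc, hh, hper, hmean, hMh⟩ := exists_osc hp0 hp1 hM0
  obtain ⟨B, hB, hB1, hB2, hB3, hB4, hB5⟩ := exists_bounds hc hper hmean
  obtain ⟨a₀, ha₀, ha₀', hsmall⟩ := exists_small (p := p) (lam := lam) (B := B) hp0 hκ
  refine ⟨a₀, ha₀, by linarith, fun a ha haa => ?_⟩
  have ha1 : a ≤ 1 := by linarith
  have hlow := wallCost_lower hp0 hp1 ha ha1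
  have hX : 0 < a ^ (1 + p) := Real.rpow_pos_of_pos ha _
  have hK : 0 < wallCost p √(1 - a ^ 2) := by linarith [hlow, hX]
  have hJ : jumpEnergy p square (wall a) = ENNReal.ofReal (2 * wallCost p √(1 - a ^ 2)) := by
    rw [jumpEnergy_wall ha, mul_comm 2 (wallCost p √(1 - a ^ 2)), ENNReal.ofReal_mul hK.le]
    simp
  refine ⟨hK, hJ, ?_⟩
  -- parameters
  set z := √(1 - a ^ 2) with hz
  have hz2 : z ^ 2 = 1 - a ^ 2 := Real.sq_sqrt (by nlinarith)
  have haz : z ^ 2 + a ^ 2 = 1 := by linarith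
  have hz0 : 0 ≤ z := Real.sqrt_nonneg _
  have hzh : 1 / 2 ≤ z := by
    by_contra hcon
    have h1 : z < 1 / 2 := not_le.1 hcon
    have h2 : z ^ 2 < 1 / 4 := by nlinarith
    nlinarith
  have hzp : 0 < z := by linarith
  set c := a ^ 2 / (2 * z) with hcdef
  have hc0 : 0 < c := by positivity
  have hca : c ≤ a ^ 2 := by
    rw [hcdef, div_le_iff₀ (by positivity)]
    nlinarith [sq_nonneg a]
  have hc2 : 2 * z * c = a ^ 2 := by rw [hcdef]; field_simp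
  set ell := lam * a ^ (1 - p) with hell
  have hell0 : 0 < ell := by
    have := Real.rpow_pos_of_pos ha (1 - p)
    positivity
  refine ⟨fun ε => fld a z c h (ell * ε), ?_, ?_, ?_⟩
  · intro ε hε
    exact ⟨fld_contDiff a z c hc _, fun x => fld_div hc x⟩
  · have hlim : Tendsto (fun ε : ℝ => ENNReal.ofReal (4 * B ^ 2 * (4 * (ell * ε)))) (𝓝[>] 0)
        (𝓝 0) := by
      have h1 : Tendsto (fun ε : ℝ => 4 * B ^ 2 * (4 * (ell * ε))) (𝓝 0) (𝓝 0) := by
        have : Continuous (fun ε : ℝ => 4 * B ^ 2 * (4 * (ell * ε))) := by fun_prop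
        simpa using this.tendsto 0
      have h2 := ENNReal.tendsto_ofReal (h1.mono_left (nhdsWithin_le_nhds (s := Ioi 0)))
      simpa using h2
    refine tendsto_of_tendsto_of_tendsto_of_le_of_le' tendsto_const_nhds hlim
      (Eventually.of_forall fun _ => zero_le) ?_
    filter_upwards [self_mem_nhdsWithin] with ε hε
    have hε' : (0 : ℝ) < ε := hε
    exact L1_bound hz ha ha1 hc0 hca (by positivity) hB hB1 hB3 hB4
  · have hev : ∀ᶠ ε : ℝ in 𝓝[>] 0, energy p ε square (fld a z c h (ell * ε)) ≤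
        ENNReal.ofReal κ * jumpEnergy p square (wall a) := by
      have hε1 : ∀ᶠ ε : ℝ in 𝓝[>] 0, ε ∈ Ioc (0:ℝ) (1 / ell) := Ioc_mem_nhdsGT (by positivity)
      filter_upwards [hε1] with ε hε
      have hε0 : 0 < ε := hε.1
      have hd0 : 0 < ell * ε := by positivity
      have hd1 : ell * ε ≤ 1 := by
        have := mul_le_mul_of_nonneg_left hε.2 hell0.le
        rwa [mul_one_div_cancel hell0.ne'] at this
      refine (energy_bound hp0 hp1 hε0 hd0 hd1 ha ha1 hc0 hca haz hc2 hc hh hper hMh hA hB hB1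
        hB2 hB3 hB4 hB5).trans ?_
      rw [hJ, ← ENNReal.ofReal_mul hκ.le]
      apply ENNReal.ofReal_le_ofReal
      have key := const_bound (p := p) (A := A) ha hlam0 hκ hM6 hlamA (hsmall a ha haa)
      calc 2 * (ell * ε) * ((1 / ε) * (a ^ (2 * p) * (3 * M) + 2 * (4 * B ^ 4 * a ^ 3) ^ p) +
            2 * (ε / (ell * ε) ^ 2) * (2 * a ^ 2 * A ^ 2 + 5 * a ^ 4 * B ^ 4))
          = 2 * ell * (a ^ (2 * p) * (3 * M) + 2 * (4 * B ^ 4 * a ^ 3) ^ p) +
            4 / ell * (2 * a ^ 2 * A ^ 2 + 5 * a ^ 4 * B ^ 4) := by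
            field_simp
            ring
        _ ≤ κ * (3 * a ^ (1 + p)) := key
        _ ≤ κ * (2 * wallCost p z) :=
            mul_le_mul_of_nonneg_left (by linarith) hκ.le
    exact limsup_le_of_le (by isBoundedDefault) hev

end Pool.Agent.Results.MP_fc6706_an.WallCost
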